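import Pool.Agent.Helper71.PY.Goals

set_option autoImplicit false

namespace Pool.Agent.Helper48.PY

open Matrix Pool.Agent.Helper71.PY

theorem lat (h1 : G_MIX) (h2 : G_BAS) (h3 : G_UNIM) : G_LAT := by
  intro R _ _ _ _ x y hR K _ _ _ n u hu f X hf
  have hinj : Function.Injective (algebraMap R K) := IsFractionRing.injective R K
  have hu0 : ∀ i, u i ≠ 0 := fun i => (hu i).ne_zero
  set d : Fin n → K := fun i => algebraMap R K (u i) with hd
  have hd0 : ∀ i, d i ≠ 0 := by
    intro i h
    exact hu0 i (hinj (by rw [map_zero]; exact h))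
  obtain ⟨M, hM, hX⟩ := h1 R K n u hu0 X ⟨f, hf.symm⟩
  obtain ⟨A, hA, hAM⟩ := h2 R x y hR K n d M hM
  -- the columns
  have hcol : ∀ j, (fun k => A k j) ∈ M := by
    intro j
    refine (hAM _).2 ⟨Pi.single j 1, ?_⟩
    have e : (fun i => algebraMap R K ((Pi.single j 1 : Fin n → R) i)) = Pi.single j 1 := by
      funext i
      by_cases hij : i = j
      · subst hij; simp
      · simp [Pi.single_eq_of_ne hij]
    rw [e]
    funext k
    simp
  have hS : ∀ i j, ∃ r : R, algebraMap R K r = bK d (fun k => A k i) (fun k => A k j) :=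
    fun i j => hM.int _ (hcol i) _ (hcol j)
  choose s hs using hS
  let S : Matrix (Fin n) (Fin n) R := Matrix.of s
  have hSs : ∀ i j, S i j = s i j := fun i j => rfl
  have hSmap : S.map (algebraMap R K) = Aᵀ * Matrix.diagonal d * A := by
    ext i j
    rw [Matrix.map_apply, hSs, hs]
    rw [Matrix.mul_apply]
    simp only [bK]
    refine Finset.sum_congr rfl fun k _ => ?_
    rw [Matrix.mul_diagonal, Matrix.transpose_apply]
    ring
  have hSsymm : Sᵀ = S := by
    ext i j
    rw [Matrix.transpose_apply, hSs, hSs]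
    apply hinj
    rw [hs, hs]
    simp only [bK]
    refine Finset.sum_congr rfl fun k _ => ?_
    ring
  -- the matrix E
  set E : Matrix (Fin n) (Fin n) K := Aᵀ * Matrix.diagonal d with hE
  have hEdet : IsUnit E.det := by
    rw [hE, Matrix.det_mul, Matrix.det_transpose, Matrix.det_diagonal]
    exact (mul_ne_zero hA (Finset.prod_ne_zero_iff.2 fun i _ => hd0 i)).isUnit
  have hEE : E * E⁻¹ = 1 := Matrix.mul_nonsing_inv E hEdet
  -- value of the form on (w, A c)
  have hval : ∀ (w c : Fin n → K), bK d w (A *ᵥ c) = (E *ᵥ w) ⬝ᵥ c := by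
    intro w c
    have e1 : bK d w (A *ᵥ c) = (Matrix.diagonal d *ᵥ w) ⬝ᵥ (A *ᵥ c) := by
      simp only [bK, dotProduct, Matrix.mulVec_diagonal]
    rw [e1, hE, ← Matrix.mulVec_mulVec, Matrix.dotProduct_mulVec, Matrix.mulVec_transpose]
  have hw : ∀ i, (fun k => E⁻¹ k i) ∈ M := by
    intro i
    refine h3 R x y hR K n u hu M hM _ ?_
    intro w hwM
    obtain ⟨c, rfl⟩ := (hAM w).1 hwM
    refine ⟨c i, ?_⟩
    change algebraMap R K (c i) = bK d (fun k => E⁻¹ k i) (A *ᵥ fun i => algebraMap R K (c i))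
    rw [hval]
    have e2 : E *ᵥ (fun k => E⁻¹ k i) = fun j => (1 : Matrix (Fin n) (Fin n) K) j i := by
      funext j
      rw [← hEE]
      rfl
    rw [e2]
    simp [dotProduct, Matrix.one_apply]
  have hT : ∀ i, ∃ c : Fin n → R, (fun k => E⁻¹ k i) = A *ᵥ (fun j => algebraMap R K (c j)) :=
    fun i => (hAM _).1 (hw i)
  choose t ht using hT
  let T : Matrix (Fin n) (Fin n) R := Matrix.of fun k i => t i k
  have hAT : A * T.map (algebraMap R K) = E⁻¹ := by
    ext k i
    have := congrFun (ht i) k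
    change (A * T.map (algebraMap R K)) k i = E⁻¹ k i
    rw [Matrix.mul_apply]
    exact this.symm
  have hST : S * T = 1 := by
    have e3 : (S * T).map (algebraMap R K) = (1 : Matrix (Fin n) (Fin n) R).map (algebraMap R K) := by
      rw [Matrix.map_mul, hSmap, Matrix.mul_assoc, hAT, hEE]
      rw [Matrix.map_one _ (map_zero _) (map_one _)]
    exact Matrix.map_injective hinj e3
  obtain ⟨c, hc⟩ := (hAM X).1 hX
  refine ⟨S, A, c, hSsymm, ?_, hA, hSmap, ?_⟩
  · exact Matrix.isUnit_det_of_right_inverse hST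
  · apply hinj
    rw [← hf]
    have e4 : algebraMap R K (c ⬝ᵥ S *ᵥ c) =
        (fun i => algebraMap R K (c i)) ⬝ᵥ (S.map (algebraMap R K)) *ᵥ (fun i => algebraMap R K (c i)) := by
      simp [dotProduct, Matrix.mulVec, Matrix.map_apply, map_sum, map_mul]
    rw [e4, hSmap]
    have e5 : bK d X X = ∑ i, algebraMap R K (u i) * X i * X i := rfl
    rw [← e5]
    conv_rhs => rw [hc]
    rw [hval, hE, dotProduct_comm, ← Matrix.mulVec_mulVec]

end Pool.Agent.Helper48.PY
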